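import Mathlib

/-!
Zero-free entire functions of order at most two.
-/

set_option autoImplicit false

open Complex Metric

namespace Pool.Agent.R444.PR

/-- An entire function with real part at most `A + B ‖z‖ ^ 2` is a polynomial of degree `≤ 2`. -/
theorem poly_of_re_le {g : ℂ → ℂ} (hg : Differentiable ℂ g) (h0 : g 0 = 0) {A B : ℝ}
    (hA : 0 < A) (hB : 0 ≤ B) (h : ∀ z, (g z).re ≤ A + B * ‖z‖ ^ 2) :
    ∃ a b : ℂ, ∀ z, g z = a * z + b * z ^ 2 := by
  have hder : ∀ n : ℕ, 3 ≤ n → iteratedDeriv n g 0 = 0 := by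
    intro n hn
    -- bound on the circle of radius `R`
    have hbd : ∀ R : ℝ, 1 ≤ R → ‖iteratedDeriv n g 0‖ ≤
        n.factorial * (2 * (A + 4 * B)) / R := by
      intro R hR
      have hR0 : 0 < R := by linarith
      have h1 : ∀ z ∈ sphere (0 : ℂ) R, ‖g z‖ ≤ 2 * (A + B * (2 * R) ^ 2) := by
        intro z hz
        rw [mem_sphere_zero_iff_norm] at hz
        have hM : 0 < A + B * (2 * R) ^ 2 := by positivity
        have h2 := Complex.borelCaratheodory_zero (f := g) (M := A + B * (2 * R) ^ 2) (R := 2 * R)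
          (z := z) hM hg.differentiableOn (fun w hw => by
            rw [mem_ball_zero_iff] at hw
            have h3 := h w
            have h4 : ‖w‖ ^ 2 ≤ (2 * R) ^ 2 := pow_le_pow_left₀ (norm_nonneg w) hw.le 2
            have h5 : B * ‖w‖ ^ 2 ≤ B * (2 * R) ^ 2 := mul_le_mul_of_nonneg_left h4 hB
            show (g w).re ≤ _
            linarith) (by linarith) (by rw [mem_ball_zero_iff]; linarith) h0
        rw [hz] at h2
        have h3 : 2 * (A + B * (2 * R) ^ 2) * R / (2 * R - R) = 2 * (A + B * (2 * R) ^ 2) := by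
          have : 2 * R - R = R := by ring
          rw [this]
          field_simp
        rw [h3] at h2
        exact h2
      have h2 := Complex.norm_iteratedDeriv_le_of_forall_mem_sphere_norm_le n hR0
        (hg.diffContOnCl (s := ball 0 R)) h1
      refine h2.trans ?_
      have hRn : R ^ 3 ≤ R ^ n := pow_le_pow_right₀ hR hn
      have h3 : A + B * (2 * R) ^ 2 ≤ (A + 4 * B) * R ^ 2 := by
        have : 1 ≤ R ^ 2 := one_le_pow₀ hR
        nlinarith
      rw [div_le_div_iff₀ (by positivity) hR0]
      have hf : (0 : ℝ) ≤ n.factorial := by positivity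
      calc (n.factorial : ℝ) * (2 * (A + B * (2 * R) ^ 2)) * R
          ≤ n.factorial * (2 * ((A + 4 * B) * R ^ 2)) * R := by gcongr
        _ = n.factorial * (2 * (A + 4 * B)) * R ^ 3 := by ring
        _ ≤ n.factorial * (2 * (A + 4 * B)) * R ^ n := by gcongr
    by_contra hne
    have hpos : 0 < ‖iteratedDeriv n g 0‖ := norm_pos_iff.mpr hne
    obtain ⟨R, hR⟩ := exists_gt (max 1 (n.factorial * (2 * (A + 4 * B)) / ‖iteratedDeriv n g 0‖))
    have hR1 : 1 < R := lt_of_le_of_lt (le_max_left _ _) hR
    have hR2 := lt_of_le_of_lt (le_max_right _ _) hR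
    have h3 := hbd R hR1.le
    rw [div_lt_iff₀ hpos] at hR2
    rw [le_div_iff₀ (by linarith)] at h3
    linarith
  refine ⟨iteratedDeriv 1 g 0, (2 : ℂ)⁻¹ * iteratedDeriv 2 g 0, fun z => ?_⟩
  have h1 := Complex.taylorSeries_eq_of_entire' 0 z hg
  have h2 : ∑' n : ℕ, ((n.factorial : ℕ) : ℂ)⁻¹ * iteratedDeriv n g 0 * (z - 0) ^ n =
      ∑ n ∈ Finset.range 3, ((n.factorial : ℕ) : ℂ)⁻¹ * iteratedDeriv n g 0 * (z - 0) ^ n := by
    apply tsum_eq_sum
    intro n hn
    rw [Finset.mem_range, not_lt] at hn
    rw [hder n hn]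
    ring
  rw [h2] at h1
  rw [← h1, Finset.sum_range_succ, Finset.sum_range_succ, Finset.sum_range_succ,
    Finset.sum_range_zero, iteratedDeriv_zero, h0]
  simp only [Nat.factorial, sub_zero]
  push_cast
  ring

/-- A zero-free even entire function of order at most two. -/
theorem exp_quad {K : ℂ → ℂ} (hK : Differentiable ℂ K) (hne : ∀ z, K z ≠ 0) (h0 : K 0 = 1)
    (heven : ∀ z, K (-z) = K z) {C B : ℝ} (hB : 0 ≤ B)
    (hbd : ∀ z, ‖K z‖ ≤ C * Real.exp (B * ‖z‖ ^ 2)) :
    ∃ b : ℂ, ∀ z, K z = Complex.exp (b * z ^ 2) := by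
  have hd : Differentiable ℂ (fun z => deriv K z / K z) := by
    have h1 : Differentiable ℂ (deriv K) := by
      intro z
      exact (hK.differentiableOn.deriv isOpen_univ).differentiableAt Filter.univ_mem
    exact fun z => (h1 z).div (hK z) (hne z)
  obtain ⟨g, hg0, hg⟩ := (Differentiable.isExactOn_univ hd).with_val_at 0 0
  have hgd : Differentiable ℂ g := fun z => (hg z (Set.mem_univ z)).differentiableAt
  have hKg : ∀ z, K z = Complex.exp (g z) := by
    have h1 : ∀ z, HasDerivAt (fun w => K w * Complex.exp (-(g w))) 0 z := by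
      intro z
      have h2 := ((hK z).hasDerivAt).mul ((hg z (Set.mem_univ z)).neg.cexp)
      have h3 : K z * (deriv K z / K z) = deriv K z := mul_div_cancel₀ _ (hne z)
      have h4 : (0 : ℂ) = deriv K z * Complex.exp (-(g z)) +
          K z * (Complex.exp (-(g z)) * (-(deriv K z / K z))) := by
        linear_combination Complex.exp (-(g z)) * h3
      rw [h4]
      exact h2
    have h2 : ∀ z, K z * Complex.exp (-(g z)) = K 0 * Complex.exp (-(g 0)) :=
      fun z => is_const_of_deriv_eq_zero (fun w => (h1 w).differentiableAt)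
        (fun w => (h1 w).deriv) z 0
    intro z
    have h3 := h2 z
    rw [h0, hg0, neg_zero, Complex.exp_zero, mul_one, Complex.exp_neg] at h3
    have := Complex.exp_ne_zero (g z)
    field_simp at h3
    exact h3
  have hCpos : 0 < C := by
    have h1 := hbd 0
    rw [h0] at h1
    simp at h1
    linarith
  have hre : ∀ z, (g z).re ≤ (|Real.log C| + 1) + B * ‖z‖ ^ 2 := by
    intro z
    have h1 := hbd z
    rw [hKg z, Complex.norm_exp] at h1
    have h2 : C * Real.exp (B * ‖z‖ ^ 2) = Real.exp (Real.log C + B * ‖z‖ ^ 2) := by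
      rw [Real.exp_add, Real.exp_log hCpos]
    rw [h2, Real.exp_le_exp] at h1
    have h3 := le_abs_self (Real.log C)
    linarith
  obtain ⟨a, b, hab⟩ := poly_of_re_le hgd hg0 (by positivity) hB hre
  -- evenness
  have ha : a = 0 := by
    have h1 : deriv K 0 = 0 := by
      have h2 : deriv (fun z => K (-z)) 0 = deriv K 0 := by
        congr 1
        funext z
        exact heven z
      rw [deriv_comp_neg] at h2
      simp only [neg_zero] at h2
      have h3 : (2 : ℂ) * deriv K 0 = 0 := by
        linear_combination -h2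
      simpa using h3
    have h2 : deriv g 0 = 0 := by
      rw [(hg 0 (Set.mem_univ 0)).deriv, h1, zero_div]
    have h3 : deriv g 0 = a := by
      have h4 : g = fun z => a * z + b * z ^ 2 := funext hab
      rw [h4]
      have h5 : HasDerivAt (fun z : ℂ => a * z + b * z ^ 2) (a * 1 + b * (2 * 0 ^ 1 * 1)) 0 := by
        have h6 := (hasDerivAt_id' (0 : ℂ)).const_mul a
        have h7 := (hasDerivAt_pow 2 (0 : ℂ)).const_mul b
        have h8 := h6.fun_add h7
        refine h8.congr_deriv ?_
        norm_num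
      rw [h5.deriv]
      ring
    rw [← h3, h2]
  refine ⟨b, fun z => ?_⟩
  rw [hKg z, hab z, ha, zero_mul, zero_add]

end Pool.Agent.R444.PR
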