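import Mathlib

/-!
Tails of symmetric laws.
-/

set_option autoImplicit false

open MeasureTheory ProbabilityTheory Measure

namespace Pool.Agent.R444.PR

/-- the tail sets -/
def S (R : ℝ) : Set ℝ := {x | R < |x|}

theorem measurableSet_S (R : ℝ) : MeasurableSet (S R) :=
  measurableSet_lt measurable_const (by fun_prop)

/-- For symmetric independent `X, Y`: `P(|X + Y| > R) ≥ (1/2) P(|X| > R or |Y| > R)`. -/
theorem conv_tail (μ ν : Measure ℝ) [IsProbabilityMeasure μ] [IsProbabilityMeasure ν]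
    (hν : ν.map (fun x => -x) = ν) (R : ℝ) :
    μ.real (S R) + ν.real (S R) - μ.real (S R) * ν.real (S R) ≤ 2 * (μ ∗ ν).real (S R) := by
  have hadd : Measurable (fun p : ℝ × ℝ => p.1 + p.2) := by fun_prop
  have hsub : Measurable (fun p : ℝ × ℝ => p.1 - p.2) := by fun_prop
  have h1 : (μ ∗ ν).real (S R) = (μ.prod ν).real ((fun p : ℝ × ℝ => p.1 + p.2) ⁻¹' S R) := by
    rw [Measure.conv, map_measureReal_apply hadd (measurableSet_S R)]
  have hmap : (μ.prod ν).map (fun p : ℝ × ℝ => (p.1, -p.2)) = μ.prod ν := by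
    have h2 := map_prod_map μ ν (f := fun x : ℝ => x) (g := fun x : ℝ => -x) measurable_id
      measurable_neg
    have h3 : μ.map (fun x : ℝ => x) = μ := Measure.map_id
    rw [hν, h3] at h2
    exact h2.symm
  have h2 : (μ ∗ ν).real (S R) = (μ.prod ν).real ((fun p : ℝ × ℝ => p.1 - p.2) ⁻¹' S R) := by
    rw [h1, ← hmap, map_measureReal_apply (by fun_prop) (hadd (measurableSet_S R)), hmap]
    congr 1
  set A := (fun p : ℝ × ℝ => p.1 + p.2) ⁻¹' S R with hA
  set B := (fun p : ℝ × ℝ => p.1 - p.2) ⁻¹' S R with hB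
  have h3 : (μ.prod ν).real (A ∪ B) ≤ (μ.prod ν).real A + (μ.prod ν).real B :=
    measureReal_union_le A B
  have h4 : ((S R)ᶜ ×ˢ (S R)ᶜ : Set (ℝ × ℝ))ᶜ ⊆ A ∪ B := by
    rintro ⟨x, y⟩ hp
    rw [Set.mem_compl_iff, Set.mem_prod, not_and_or, Set.mem_compl_iff, Set.mem_compl_iff,
      not_not, not_not] at hp
    by_contra hcon
    rw [Set.mem_union, not_or] at hcon
    obtain ⟨h5, h6⟩ := hcon
    have h5' : |x + y| ≤ R := not_lt.mp h5
    have h6' : |x - y| ≤ R := not_lt.mp h6
    rw [abs_le] at h5' h6'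
    rcases hp with h7 | h7
    · have h8 : R < |x| := h7
      rw [lt_abs] at h8
      rcases h8 with h8 | h8 <;> linarith
    · have h8 : R < |y| := h7
      rw [lt_abs] at h8
      rcases h8 with h8 | h8 <;> linarith
  have h5 : (μ.prod ν).real (((S R)ᶜ ×ˢ (S R)ᶜ : Set (ℝ × ℝ))ᶜ) ≤ (μ.prod ν).real (A ∪ B) :=
    measureReal_mono h4
  have h6 : (μ.prod ν).real (((S R)ᶜ ×ˢ (S R)ᶜ : Set (ℝ × ℝ))ᶜ) =
      1 - (1 - μ.real (S R)) * (1 - ν.real (S R)) := by
    rw [probReal_compl_eq_one_sub ((measurableSet_S R).compl.prod (measurableSet_S R).compl),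
      measureReal_prod_prod, probReal_compl_eq_one_sub (measurableSet_S R),
      probReal_compl_eq_one_sub (measurableSet_S R)]
  have h7 : (μ.prod ν).real B = (μ ∗ ν).real (S R) := h2.symm
  rw [h6] at h5
  rw [← h1, h7] at h3
  nlinarith

theorem tail_small (μ : Measure ℝ) [IsProbabilityMeasure μ] :
    ∃ R₀ : ℝ, 0 ≤ R₀ ∧ ∀ R, R₀ ≤ R → μ.real (S R) ≤ 1 / 4 := by
  have h1 : Filter.Tendsto (fun n : ℕ => μ (S n)) Filter.atTop
      (nhds (μ (⋂ n : ℕ, S n))) := by
    apply tendsto_measure_iInter_atTop (s := fun n : ℕ => S n)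
      (fun n => (measurableSet_S n).nullMeasurableSet)
    · intro m n hmn x hx
      have h2 : (n : ℝ) < |x| := hx
      have h3 : (m : ℝ) ≤ n := by exact_mod_cast hmn
      exact lt_of_le_of_lt h3 h2
    · exact ⟨0, measure_ne_top _ _⟩
  have h2 : (⋂ n : ℕ, S n) = ∅ := by
    ext x
    simp only [Set.mem_iInter, Set.mem_empty_iff_false, iff_false, not_forall]
    obtain ⟨n, hn⟩ := exists_nat_ge |x|
    exact ⟨n, not_lt.mpr hn⟩
  rw [h2, measure_empty] at h1
  have h3 := (h1.eventually_lt_const (show (0 : ENNReal) < ENNReal.ofReal (1 / 4) by simp)).exists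
  obtain ⟨n, hn⟩ := h3
  refine ⟨n, Nat.cast_nonneg n, fun R hR => ?_⟩
  have h4 : μ.real (S R) ≤ μ.real (S n) := measureReal_mono (fun x hx => lt_of_le_of_lt hR hx)
  have h5 : μ.real (S n) ≤ 1 / 4 := by
    rw [Measure.real]
    exact ENNReal.toReal_le_of_le_ofReal (by norm_num) hn.le
  linarith

/-- Comparison of exponential moments from a comparison of tails. -/
theorem exp_moment (μ γ : Measure ℝ) [IsProbabilityMeasure μ] [IsFiniteMeasure γ] {R₀ : ℝ}
    (h : ∀ R, R₀ ≤ R → μ (S R) ≤ 3 * γ (S R)) {t : ℝ} (ht : 0 < t) :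
    ∫⁻ x, ENNReal.ofReal (Real.exp (t * |x|)) ∂μ ≤
      ENNReal.ofReal (Real.exp (t * R₀)) + 3 * ∫⁻ x, ENNReal.ofReal (Real.exp (t * |x|)) ∂γ := by
  have hmeas : Measurable (fun x : ℝ => Real.exp (t * |x|)) := by fun_prop
  rw [lintegral_eq_lintegral_meas_lt μ (Filter.Eventually.of_forall fun x => (Real.exp_pos _).le)
    hmeas.aemeasurable, lintegral_eq_lintegral_meas_lt γ
    (Filter.Eventually.of_forall fun x => (Real.exp_pos _).le) hmeas.aemeasurable]
  set E := Real.exp (t * R₀) with hE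
  have hset : ∀ u, E ≤ u → {x : ℝ | u < Real.exp (t * |x|)} = S (Real.log u / t) := by
    intro u hu
    have hupos : 0 < u := lt_of_lt_of_le (Real.exp_pos _) hu
    ext x
    show u < Real.exp (t * |x|) ↔ Real.log u / t < |x|
    rw [← Real.log_lt_iff_lt_exp hupos, div_lt_iff₀ ht, mul_comm]
  calc ∫⁻ u in Set.Ioi 0, μ {x : ℝ | u < Real.exp (t * |x|)}
      ≤ ∫⁻ u in Set.Ioi 0, ((Set.Iic E).indicator (fun _ => (1 : ENNReal)) u +
          3 * γ {x : ℝ | u < Real.exp (t * |x|)}) := by
        apply lintegral_mono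
        intro u
        show μ {x : ℝ | u < Real.exp (t * |x|)} ≤ (Set.Iic E).indicator (fun _ => (1 : ENNReal)) u +
          3 * γ {x : ℝ | u < Real.exp (t * |x|)}
        by_cases hu : u ≤ E
        · rw [Set.indicator_of_mem (show u ∈ Set.Iic E from hu)]
          exact (prob_le_one).trans le_self_add
        · rw [Set.indicator_of_notMem (show u ∉ Set.Iic E from hu), zero_add]
          have hu' : E ≤ u := (not_le.mp hu).le
          rw [hset u hu']
          apply h
          rw [le_div_iff₀ ht, Real.le_log_iff_exp_le (lt_of_lt_of_le (Real.exp_pos _) hu'),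
            mul_comm]
          exact hu'
    _ = (∫⁻ u in Set.Ioi 0, (Set.Iic E).indicator (fun _ => (1 : ENNReal)) u) +
          ∫⁻ u in Set.Ioi 0, 3 * γ {x : ℝ | u < Real.exp (t * |x|)} := by
        apply lintegral_add_left
        exact measurable_const.indicator measurableSet_Iic
    _ ≤ _ := by
        gcongr
        · rw [lintegral_indicator measurableSet_Iic, setLIntegral_one,
            Measure.restrict_apply measurableSet_Iic]
          have : Set.Iic E ∩ Set.Ioi 0 = Set.Ioc 0 E := by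
            ext u; simp [and_comm]
          rw [this, Real.volume_Ioc, sub_zero]
        · rw [lintegral_const_mul' _ _ (by simp)]

end Pool.Agent.R444.PR
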