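import Pool.Agent.R444.PR.Entire
import Pool.Agent.R444.PR.Tails

/-!
Rigidity of the factorization `(f₁ - 1/4) (f₂ - 1/4) = (9/16) exp (-a ξ²)`.
-/

set_option autoImplicit false

open MeasureTheory ProbabilityTheory Measure Complex

namespace Pool.Agent.R444.PR

/-- A law with a real characteristic function is symmetric. -/
theorem symm_of_real (μ : Measure ℝ) [IsProbabilityMeasure μ] (f : ℝ → ℝ)
    (hf : ∀ ξ, charFun μ ξ = (f ξ : ℂ)) : μ.map (fun x => -x) = μ := by
  have : IsProbabilityMeasure (μ.map (fun x : ℝ => -x)) :=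
    isProbabilityMeasure_map (by fun_prop)
  apply Measure.ext_of_charFun
  funext ξ
  have h1 : charFun (μ.map (fun x : ℝ => -x)) ξ = charFun μ (-1 * ξ) := by
    have h2 := charFun_map_mul (μ := μ) (-1) ξ
    rw [← h2]
    congr 2
    funext x
    ring
  rw [h1, neg_one_mul, charFun_neg, hf ξ, conj_ofReal]

/-- Exponential moments. -/
theorem moments (μ₁ μ₂ : Measure ℝ) [IsProbabilityMeasure μ₁] [IsProbabilityMeasure μ₂]
    (f₁ f₂ : ℝ → ℝ) (h₁ : ∀ ξ, charFun μ₁ ξ = (f₁ ξ : ℂ)) (h₂ : ∀ ξ, charFun μ₂ ξ = (f₂ ξ : ℂ))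
    {a : ℝ} (ha : 0 < a)
    (h : ∀ ξ, (4 * f₁ ξ - 1) / 3 * ((4 * f₂ ξ - 1) / 3) = Real.exp (-(a * ξ ^ 2))) :
    ∃ R₀ : ℝ, 0 ≤ R₀ ∧ ∀ R, R₀ ≤ R →
      μ₁ (S R) ≤ 3 * (gaussianReal 0 ⟨2 * a, by positivity⟩) (S R) ∧
      μ₂ (S R) ≤ 3 * (gaussianReal 0 ⟨2 * a, by positivity⟩) (S R) := by
  set v : NNReal := ⟨2 * a, by positivity⟩ with hv
  set γ := gaussianReal 0 v with hγ
  have hid : (16 : NNReal) • (μ₁ ∗ μ₂) + Measure.dirac 0 =
      (9 : NNReal) • γ + (4 : NNReal) • μ₁ + (4 : NNReal) • μ₂ := by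
    apply Measure.ext_of_charFun
    funext ξ
    have hint : ∀ (ρ : Measure ℝ) [IsFiniteMeasure ρ], Integrable (fun x : ℝ => cexp (ξ * x * I)) ρ := by
      intro ρ _
      refine (integrable_const (1 : ℝ)).mono (by fun_prop) (Filter.Eventually.of_forall fun x => ?_)
      rw [show (ξ : ℂ) * x * I = ((ξ * x : ℝ) : ℂ) * I by push_cast; ring, norm_exp_ofReal_mul_I]
      simp
    have hcf : ∀ (ρ : Measure ℝ), charFun ρ ξ = ∫ x, cexp (ξ * x * I) ∂ρ :=
      fun ρ => charFun_apply_real ξ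
    have hsm : ∀ (c : NNReal) (ρ : Measure ℝ), charFun (c • ρ) ξ = c * charFun ρ ξ := by
      intro c ρ
      rw [hcf, hcf, integral_smul_nnreal_measure]
      rw [NNReal.smul_def, Complex.real_smul]
    have hadd : ∀ (ρ σ : Measure ℝ) [IsFiniteMeasure ρ] [IsFiniteMeasure σ],
        charFun (ρ + σ) ξ = charFun ρ ξ + charFun σ ξ := by
      intro ρ σ _ _
      rw [hcf, hcf, hcf, integral_add_measure (hint ρ) (hint σ)]
    rw [hadd, hadd, hadd, hsm, hsm, hsm, hsm, charFun_conv, h₁, h₂, charFun_dirac, hγ,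
      charFun_gaussianReal]
    have h3 := h ξ
    have h4 : ((Real.exp (-(a * ξ ^ 2)) : ℝ) : ℂ) = cexp (ξ * (0 : ℝ) * I - (v : ℝ) * ξ ^ 2 / 2) := by
      rw [Complex.ofReal_exp]
      congr 1
      have : (v : ℝ) = 2 * a := rfl
      rw [this]
      push_cast
      ring
    have h5 : cexp (ξ * (0 : ℝ) * I - (v : ℝ) * ξ ^ 2 / 2) =
        (4 * (f₁ ξ : ℂ) - 1) / 3 * ((4 * (f₂ ξ : ℂ) - 1) / 3) := by
      rw [← h4, ← h3]
      push_cast
      ring
    have h6 : ((v : NNReal) : ℂ) = ((v : ℝ) : ℂ) := rfl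
    simp only [inner_zero_left, ofReal_zero, zero_mul, Complex.exp_zero]
    rw [ofReal_zero] at h5
    rw [h5]
    push_cast
    ring
  have hs₁ := symm_of_real μ₁ f₁ h₁
  have hs₂ := symm_of_real μ₂ f₂ h₂
  obtain ⟨R₁, hR₁0, hR₁⟩ := tail_small μ₁
  obtain ⟨R₂, hR₂0, hR₂⟩ := tail_small μ₂
  refine ⟨max R₁ R₂, le_max_of_le_left hR₁0, fun R hR => ?_⟩
  have hRa := hR₁ R ((le_max_left _ _).trans hR)
  have hRb := hR₂ R ((le_max_right _ _).trans hR)
  have hR0 : 0 ≤ R := (le_max_of_le_left hR₁0).trans hR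
  have hc := conv_tail μ₁ μ₂ hs₂ R
  have hid2 : 16 * (μ₁ ∗ μ₂).real (S R) = 9 * γ.real (S R) + 4 * μ₁.real (S R) +
      4 * μ₂.real (S R) := by
    have h1 := congrArg (fun ρ : Measure ℝ => ρ.real (S R)) hid
    have hd : (Measure.dirac (0 : ℝ)).real (S R) = 0 := by
      rw [Measure.real, Measure.dirac_apply' _ (measurableSet_S R), Set.indicator_of_notMem]
      · simp
      · intro h2
        have h3 : R < |(0 : ℝ)| := h2
        rw [abs_zero] at h3
        linarith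
    rw [measureReal_add_apply, measureReal_add_apply, measureReal_add_apply, hd,
      measureReal_nnreal_smul_apply, measureReal_nnreal_smul_apply, measureReal_nnreal_smul_apply,
      measureReal_nnreal_smul_apply] at h1
    simpa using h1
  have h1nn : 0 ≤ μ₁.real (S R) := measureReal_nonneg
  have h2nn : 0 ≤ μ₂.real (S R) := measureReal_nonneg
  have hkey : μ₁.real (S R) + μ₂.real (S R) ≤ 3 * γ.real (S R) := by
    nlinarith
  have conv : ∀ ρ : Measure ℝ, IsProbabilityMeasure ρ → ρ.real (S R) ≤ 3 * γ.real (S R) →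
      ρ (S R) ≤ 3 * γ (S R) := by
    intro ρ _ hρ
    have h3 : (3 : ENNReal) * γ (S R) = ENNReal.ofReal (3 * γ.real (S R)) := by
      rw [ENNReal.ofReal_mul (by norm_num), ofReal_measureReal]
      simp
    rw [h3, ← ofReal_measureReal (μ := ρ)]
    exact ENNReal.ofReal_le_ofReal hρ
  exact ⟨conv μ₁ inferInstance (by linarith), conv μ₂ inferInstance (by linarith)⟩

/-- Exponential moments of a law with Gaussian tails. -/
theorem exp_bound (μ : Measure ℝ) [IsProbabilityMeasure μ] {v : NNReal} {R₀ : ℝ}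
    (h : ∀ R, R₀ ≤ R → μ (S R) ≤ 3 * (gaussianReal 0 v) (S R)) {t : ℝ} (ht : 0 < t) :
    ∫⁻ x, ENNReal.ofReal (Real.exp (t * |x|)) ∂μ ≤
      ENNReal.ofReal (Real.exp (t * R₀) + 6 * Real.exp (v * t ^ 2 / 2)) := by
  refine (exp_moment μ (gaussianReal 0 v) h ht).trans ?_
  have hm : ∀ s : ℝ, ∫⁻ x, ENNReal.ofReal (Real.exp (s * x)) ∂(gaussianReal 0 v) =
      ENNReal.ofReal (Real.exp (v * s ^ 2 / 2)) := by
    intro s
    have h1 : Integrable (fun x : ℝ => Real.exp (s * x)) (gaussianReal 0 v) :=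
      integrable_exp_mul_gaussianReal s
    rw [← ofReal_integral_eq_lintegral_ofReal h1
      (Filter.Eventually.of_forall fun x => (Real.exp_pos _).le)]
    congr 1
    have h2 : mgf id (gaussianReal 0 v) s = Real.exp (v * s ^ 2 / 2) := by
      rw [mgf_id_gaussianReal]
      simp
    exact h2
  have h2 : ∫⁻ x, ENNReal.ofReal (Real.exp (t * |x|)) ∂(gaussianReal 0 v) ≤
      ENNReal.ofReal (2 * Real.exp (v * t ^ 2 / 2)) := by
    calc ∫⁻ x, ENNReal.ofReal (Real.exp (t * |x|)) ∂(gaussianReal 0 v)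
        ≤ ∫⁻ x, (ENNReal.ofReal (Real.exp (t * x)) + ENNReal.ofReal (Real.exp (-t * x)))
            ∂(gaussianReal 0 v) := by
          apply lintegral_mono
          intro x
          show ENNReal.ofReal (Real.exp (t * |x|)) ≤
            ENNReal.ofReal (Real.exp (t * x)) + ENNReal.ofReal (Real.exp (-t * x))
          rcases abs_cases x with ⟨h3, _⟩ | ⟨h3, _⟩
          · rw [h3]; exact le_self_add
          · rw [h3, show t * -x = -t * x by ring]; exact le_add_self
      _ = ENNReal.ofReal (2 * Real.exp (v * t ^ 2 / 2)) := by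
          rw [lintegral_add_left (by fun_prop), hm, hm, neg_sq, ← two_mul,
            ENNReal.ofReal_mul (by norm_num)]
          simp
  rw [ENNReal.ofReal_add (Real.exp_pos _).le (by positivity)]
  gcongr
  calc 3 * ∫⁻ x, ENNReal.ofReal (Real.exp (t * |x|)) ∂(gaussianReal 0 v)
      ≤ 3 * ENNReal.ofReal (2 * Real.exp (v * t ^ 2 / 2)) := by gcongr
    _ = ENNReal.ofReal (6 * Real.exp (v * t ^ 2 / 2)) := by
        rw [show (6 : ℝ) * Real.exp (v * t ^ 2 / 2) = 3 * (2 * Real.exp (v * t ^ 2 / 2)) by ring,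
          ENNReal.ofReal_mul (p := 3) (by norm_num)]
        simp

theorem integrable_exp (μ : Measure ℝ) [IsProbabilityMeasure μ] {v : NNReal} {R₀ : ℝ}
    (h : ∀ R, R₀ ≤ R → μ (S R) ≤ 3 * (gaussianReal 0 v) (S R)) (t : ℝ) :
    Integrable (fun x : ℝ => Real.exp (t * x)) μ := by
  have h1 : Integrable (fun x : ℝ => Real.exp ((|t| + 1) * |x|)) μ := by
    refine ⟨by fun_prop, ?_⟩
    rw [hasFiniteIntegral_iff_ofReal (Filter.Eventually.of_forall fun x => (Real.exp_pos _).le)]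
    exact lt_of_le_of_lt (exp_bound μ h (by positivity)) ENNReal.ofReal_lt_top
  refine h1.mono (by fun_prop) (Filter.Eventually.of_forall fun x => ?_)
  rw [Real.norm_of_nonneg (Real.exp_pos _).le, Real.norm_of_nonneg (Real.exp_pos _).le,
    Real.exp_le_exp]
  have h2 : t * x ≤ |t| * |x| := by rw [← abs_mul]; exact le_abs_self _
  have h3 := abs_nonneg x
  nlinarith

theorem mgf_bound (μ : Measure ℝ) [IsProbabilityMeasure μ] {v : NNReal} {R₀ : ℝ}
    (h : ∀ R, R₀ ≤ R → μ (S R) ≤ 3 * (gaussianReal 0 v) (S R)) (t : ℝ) :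
    mgf id μ t ≤ (Real.exp (R₀ ^ 2) + 6) * Real.exp ((1 + v) * t ^ 2) := by
  rcases eq_or_ne t 0 with rfl | ht
  · rw [mgf_zero]
    have : 0 < Real.exp (R₀ ^ 2) := Real.exp_pos _
    simp
    linarith
  · have htp : 0 < |t| := abs_pos.mpr ht
    have h1 : Integrable (fun x : ℝ => Real.exp (|t| * |x|)) μ := by
      refine ⟨by fun_prop, ?_⟩
      rw [hasFiniteIntegral_iff_ofReal (Filter.Eventually.of_forall fun x => (Real.exp_pos _).le)]
      exact lt_of_le_of_lt (exp_bound μ h htp) ENNReal.ofReal_lt_top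
    have h2 : mgf id μ t ≤ ∫ x, Real.exp (|t| * |x|) ∂μ := by
      rw [mgf]
      apply integral_mono (integrable_exp μ h t) h1
      intro x
      show Real.exp (t * id x) ≤ Real.exp (|t| * |x|)
      rw [Real.exp_le_exp, ← abs_mul]
      exact le_abs_self _
    have h3 : ∫ x, Real.exp (|t| * |x|) ∂μ ≤
        Real.exp (|t| * R₀) + 6 * Real.exp (v * |t| ^ 2 / 2) := by
      have h4 := exp_bound μ h htp
      rw [← ofReal_integral_eq_lintegral_ofReal h1
        (Filter.Eventually.of_forall fun x => (Real.exp_pos _).le)] at h4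
      exact (ENNReal.ofReal_le_ofReal_iff (by positivity)).mp h4
    refine h2.trans (h3.trans ?_)
    rw [sq_abs, add_mul]
    have hv : (0 : ℝ) ≤ v := v.2
    have ht2 : |t| ^ 2 = t ^ 2 := sq_abs t
    gcongr
    · rw [← Real.exp_add, Real.exp_le_exp]
      nlinarith [sq_nonneg (|t| - R₀), mul_nonneg hv (sq_nonneg t), sq_nonneg t, sq_nonneg R₀]
    · nlinarith [mul_nonneg hv (sq_nonneg t), sq_nonneg t]

end Pool.Agent.R444.PR
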