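import Pool.Agent.R444.PR.Main

/-!
Rigidity: the factors are Gaussian.
-/

set_option autoImplicit false

open MeasureTheory ProbabilityTheory Measure Complex Filter Topology

namespace Pool.Agent.R444.PR

/-- the entire function attached to a law -/
noncomputable def KK (μ : Measure ℝ) (z : ℂ) : ℂ := (4 * complexMGF id μ z - 1) / 3

theorem KK_I (μ : Measure ℝ) (f : ℝ → ℝ) (hf : ∀ ξ, charFun μ ξ = (f ξ : ℂ)) (ξ : ℝ) :
    KK μ (ξ * I) = (((4 * f ξ - 1) / 3 : ℝ) : ℂ) := by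
  rw [KK, complexMGF_id_mul_I, hf]
  push_cast
  ring

theorem KK_diff (μ : Measure ℝ) (h : ∀ t : ℝ, Integrable (fun x : ℝ => Real.exp (t * x)) μ) :
    Differentiable ℂ (KK μ) := by
  have h1 : integrableExpSet id μ = Set.univ := by
    ext t
    simp only [Set.mem_univ, iff_true]
    exact h t
  have h2 : Differentiable ℂ (complexMGF id μ) := by
    intro z
    refine (hasDerivAt_complexMGF (X := id) (μ := μ) (z := z) ?_).differentiableAt
    rw [h1, interior_univ]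
    exact Set.mem_univ _
  intro z
  unfold KK
  exact (((h2 z).const_mul 4).sub_const 1).div_const 3

theorem KK_zero (μ : Measure ℝ) [IsProbabilityMeasure μ] : KK μ 0 = 1 := by
  have h1 : complexMGF id μ ((0 : ℝ) : ℂ) = mgf id μ 0 := complexMGF_ofReal 0
  rw [mgf_zero] at h1
  rw [KK, show (0 : ℂ) = ((0 : ℝ) : ℂ) by simp, h1]
  norm_num

theorem KK_neg (μ : Measure ℝ) (hs : μ.map (fun x => -x) = μ) (z : ℂ) : KK μ (-z) = KK μ z := by
  have h1 : complexMGF id μ (-z) = complexMGF id μ z := by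
    have h2 : complexMGF id (μ.map (fun x : ℝ => -x)) z = complexMGF (fun x : ℝ => -x) μ z :=
      congrFun (complexMGF_id_map (μ := μ) (X := fun x : ℝ => -x) (by fun_prop)) z
    rw [hs] at h2
    rw [h2, complexMGF, complexMGF]
    congr 1
    funext x
    congr 1
    simp
  rw [KK, h1, KK]

theorem KK_bound (μ : Measure ℝ) [IsProbabilityMeasure μ] {v : NNReal} {R₀ : ℝ}
    (h : ∀ R, R₀ ≤ R → μ (S R) ≤ 3 * (gaussianReal 0 v) (S R)) (z : ℂ) :
    ‖KK μ z‖ ≤ ((4 * (Real.exp (R₀ ^ 2) + 6) + 1) / 3) * Real.exp ((1 + v) * ‖z‖ ^ 2) := by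
  have h1 : ‖complexMGF id μ z‖ ≤ mgf id μ z.re := norm_complexMGF_le_mgf
  have h2 := mgf_bound μ h z.re
  have hv : (0 : ℝ) ≤ v := v.2
  have h3 : Real.exp ((1 + v) * z.re ^ 2) ≤ Real.exp ((1 + v) * ‖z‖ ^ 2) := by
    rw [Real.exp_le_exp]
    have h4 : z.re ^ 2 ≤ ‖z‖ ^ 2 := by
      rw [← sq_abs]
      exact pow_le_pow_left₀ (abs_nonneg _) (abs_re_le_norm z) 2
    gcongr
  have h5 : 1 ≤ Real.exp ((1 + v) * ‖z‖ ^ 2) := Real.one_le_exp (by positivity)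
  have h6 : ‖KK μ z‖ ≤ (4 * ‖complexMGF id μ z‖ + 1) / 3 := by
    rw [KK, norm_div]
    have h7 : ‖(3 : ℂ)‖ = 3 := by norm_num
    rw [h7]
    gcongr
    refine (norm_sub_le _ _).trans ?_
    rw [norm_mul]
    norm_num
  have h8 : 0 < Real.exp (R₀ ^ 2) + 6 := by positivity
  have h9 : mgf id μ z.re ≤ (Real.exp (R₀ ^ 2) + 6) * Real.exp ((1 + v) * ‖z‖ ^ 2) :=
    h2.trans (by gcongr)
  calc ‖KK μ z‖ ≤ (4 * ‖complexMGF id μ z‖ + 1) / 3 := h6
    _ ≤ (4 * ((Real.exp (R₀ ^ 2) + 6) * Real.exp ((1 + v) * ‖z‖ ^ 2)) +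
        Real.exp ((1 + v) * ‖z‖ ^ 2)) / 3 := by
        gcongr
        exact h1.trans h9
    _ = _ := by ring

/-- From the complex to the real exponential. -/
theorem real_exp (g : ℝ → ℝ) (b : ℂ) (hg : ∀ ξ : ℝ, ((g ξ : ℝ) : ℂ) = cexp (-(b * (ξ : ℂ) ^ 2)))
    (h1 : ∀ ξ, g ξ ≤ 1) : ∃ β : ℝ, 0 ≤ β ∧ ∀ ξ, g ξ = Real.exp (-(β * ξ ^ 2)) := by
  have hform : ∀ ξ : ℝ, -(b * (ξ : ℂ) ^ 2) = ((-(b.re * ξ ^ 2) : ℝ) : ℂ) +
      ((-(b.im * ξ ^ 2) : ℝ) : ℂ) * I := by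
    intro ξ
    apply Complex.ext
    · simp [← ofReal_pow]
    · simp [← ofReal_pow]
  have hsin : ∀ ξ : ℝ, Real.sin (b.im * ξ ^ 2) = 0 := by
    intro ξ
    have h2 := congrArg Complex.im (hg ξ)
    rw [hform ξ, Complex.exp_add, ← Complex.ofReal_exp, Complex.im_ofReal_mul,
      Complex.exp_ofReal_mul_I_im, ofReal_im, Real.sin_neg] at h2
    have h3 := Real.exp_pos (-(b.re * ξ ^ 2))
    have h4 : Real.exp (-(b.re * ξ ^ 2)) * Real.sin (b.im * ξ ^ 2) = 0 := by linarith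
    rcases mul_eq_zero.mp h4 with h5 | h5
    · exact absurd h5 h3.ne'
    · exact h5
  have him : b.im = 0 := by
    by_contra hne
    have hpos : 0 < |b.im| := abs_pos.mpr hne
    have hnn : 0 ≤ Real.pi / (2 * |b.im|) := by positivity
    have h2 := hsin (√(Real.pi / (2 * |b.im|)))
    rw [Real.sq_sqrt hnn] at h2
    rcases abs_cases b.im with ⟨h3, _⟩ | ⟨h3, _⟩
    · have h4 : b.im * (Real.pi / (2 * |b.im|)) = Real.pi / 2 := by
        rw [h3]; field_simp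
      rw [h4, Real.sin_pi_div_two] at h2
      norm_num at h2
    · have h4 : b.im * (Real.pi / (2 * |b.im|)) = -(Real.pi / 2) := by
        rw [h3]; field_simp
      rw [h4, Real.sin_neg, Real.sin_pi_div_two] at h2
      norm_num at h2
  have hval : ∀ ξ, g ξ = Real.exp (-(b.re * ξ ^ 2)) := by
    intro ξ
    have h2 := hg ξ
    rw [hform ξ, him] at h2
    simp only [zero_mul, neg_zero, ofReal_zero, add_zero] at h2
    rw [← Complex.ofReal_exp] at h2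
    exact_mod_cast h2
  refine ⟨b.re, ?_, hval⟩
  have h2 := h1 1
  rw [hval 1] at h2
  rw [Real.exp_le_one_iff] at h2
  linarith

/-- The rigidity theorem. -/
theorem rigid (μ₁ μ₂ : Measure ℝ) [IsProbabilityMeasure μ₁] [IsProbabilityMeasure μ₂]
    (f₁ f₂ : ℝ → ℝ) (h₁ : ∀ ξ, charFun μ₁ ξ = (f₁ ξ : ℂ)) (h₂ : ∀ ξ, charFun μ₂ ξ = (f₂ ξ : ℂ))
    {a : ℝ} (ha : 0 < a)
    (h : ∀ ξ, (4 * f₁ ξ - 1) / 3 * ((4 * f₂ ξ - 1) / 3) = Real.exp (-(a * ξ ^ 2)))
    (hl₁ : ∀ ξ, f₁ ξ ≤ 1) (hl₂ : ∀ ξ, f₂ ξ ≤ 1) :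
    (∃ β : ℝ, 0 ≤ β ∧ ∀ ξ, (4 * f₁ ξ - 1) / 3 = Real.exp (-(β * ξ ^ 2))) ∧
    (∃ β : ℝ, 0 ≤ β ∧ ∀ ξ, (4 * f₂ ξ - 1) / 3 = Real.exp (-(β * ξ ^ 2))) := by
  obtain ⟨R₀, -, hR⟩ := moments μ₁ μ₂ f₁ f₂ h₁ h₂ ha h
  have hR₁ := fun R hR' => (hR R hR').1
  have hR₂ := fun R hR' => (hR R hR').2
  have hd₁ := KK_diff μ₁ (integrable_exp μ₁ hR₁)
  have hd₂ := KK_diff μ₂ (integrable_exp μ₂ hR₂)
  have hprod : ∀ z, KK μ₁ z * KK μ₂ z = cexp (a * z ^ 2) := by
    have h3 : (fun z => KK μ₁ z * KK μ₂ z) = fun z => cexp (a * z ^ 2) := by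
      apply AnalyticOnNhd.eq_of_frequently_eq (z₀ := 0) (𝕜 := ℂ)
      · exact (hd₁.mul hd₂).differentiableOn.analyticOnNhd isOpen_univ
      · exact (Differentiable.differentiableOn (by fun_prop)).analyticOnNhd isOpen_univ
      · have h4 : Tendsto (fun n : ℕ => (((1 : ℝ) / ((n : ℝ) + 1) : ℝ) : ℂ) * I) atTop
            (𝓝[≠] (0 : ℂ)) := by
          rw [tendsto_nhdsWithin_iff]
          constructor
          · have h5 : Tendsto (fun n : ℕ => (1 : ℝ) / ((n : ℝ) + 1)) atTop (𝓝 0) :=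
              tendsto_one_div_add_atTop_nhds_zero_nat
            have h6 := (Complex.continuous_ofReal.tendsto 0).comp h5
            have h7 := h6.mul_const I
            simpa using h7
          · refine Eventually.of_forall fun n => ?_
            have h8 : (0 : ℝ) < 1 / ((n : ℝ) + 1) := by positivity
            simp only [Set.mem_compl_iff, Set.mem_singleton_iff, mul_eq_zero, I_ne_zero, or_false,
              ofReal_eq_zero]
            exact h8.ne'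
        refine h4.frequently (Eventually.frequently (Eventually.of_forall fun n => ?_))
        rw [KK_I μ₁ f₁ h₁, KK_I μ₂ f₂ h₂, ← ofReal_mul, h, ofReal_exp]
        congr 1
        rw [mul_pow, I_sq]
        push_cast
        ring
    exact fun z => congrFun h3 z
  have hne₁ : ∀ z, KK μ₁ z ≠ 0 := fun z h3 => by
    have h4 := hprod z
    rw [h3, zero_mul] at h4
    exact Complex.exp_ne_zero _ h4.symm
  have hne₂ : ∀ z, KK μ₂ z ≠ 0 := fun z h3 => by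
    have h4 := hprod z
    rw [h3, mul_zero] at h4
    exact Complex.exp_ne_zero _ h4.symm
  have hv : ∀ v : NNReal, (0 : ℝ) ≤ 1 + v := fun v => by positivity
  obtain ⟨b₁, hb₁⟩ := exp_quad hd₁ hne₁ (KK_zero μ₁) (KK_neg μ₁ (symm_of_real μ₁ f₁ h₁))
    (hv _) (KK_bound μ₁ hR₁)
  obtain ⟨b₂, hb₂⟩ := exp_quad hd₂ hne₂ (KK_zero μ₂) (KK_neg μ₂ (symm_of_real μ₂ f₂ h₂))
    (hv _) (KK_bound μ₂ hR₂)
  constructor
  · apply real_exp (fun ξ => (4 * f₁ ξ - 1) / 3) b₁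
    · intro ξ
      rw [← KK_I μ₁ f₁ h₁ ξ, hb₁, mul_pow, I_sq]
      congr 1
      ring
    · intro ξ
      have := hl₁ ξ
      show (4 * f₁ ξ - 1) / 3 ≤ 1
      linarith
  · apply real_exp (fun ξ => (4 * f₂ ξ - 1) / 3) b₂
    · intro ξ
      rw [← KK_I μ₂ f₂ h₂ ξ, hb₂, mul_pow, I_sq]
      congr 1
      ring
    · intro ξ
      have := hl₂ ξ
      show (4 * f₂ ξ - 1) / 3 ≤ 1
      linarith

end Pool.Agent.R444.PR
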